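import Mathlib
import Pool.Agent.Z705.Fin
import Pool.Agent.Y687.MQ.Fin
import Pool.Agent.Q155.KT.Inf

/-!
# Weak BSD over the divisors of `p_1 ⋯ p_k`: a law of large numbers for every base twist

`E_D` is the quadratic twist by `D` of the modular curve `X_0(14)` (no complex multiplication), a split
prime is a prime that splits completely in `ℚ(√-1, √2, √-7)`, and `D` is called good here if it is in
the class of the starting theorem `TwistsBothSigns`, `E_D(ℚ)` is finite and `Ш(E_D)[2] = 0`. Then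
`L(E_D, 1) ≠ 0`, so that the conjecture holds for `E_D`. Let `κ = (1 - 1/2) (1 - 1/8) (1 - 1/32) ⋯`,
`0.4194 < κ < 0.4195`.

* Let `𝒟` be ANY finite set of discriminants of the class (good or not; the ranks of the curves `E_D`
  are arbitrary), and let `n_D` be the number of the split primes dividing `D`. For all `k` and `ε > 0`
  the tuples `(p_1, …, p_k)` of different split primes prime to `𝒟` such that for each `D ∈ 𝒟` the share
  of the good numbers among the `2^k` numbers `D d`, `d ∣ p_1 ⋯ p_k`, differs from `κ` by less than `ε`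
  have an exact limit proportion among all the tuples of split primes up to `X`, `X → ∞`, and this
  proportion is at least `1 - (7/8)^k ε⁻² ∑_D 2^(n_D + 3)`.
* There are infinite sequences `p_1 < p_2 < ⋯` of split primes for which, for each `D ∈ 𝒟`, the share of
  the good numbers among the `D d`, `d ∣ p_1 ⋯ p_k`, is `κ + O((31/32)^k)`.

So the conjecture holds with the frequency at least `κ` on the divisor lattice over every base twist,
also when the base twist has a large rank. The criterion for a single discriminant and the nonvanishing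
are the starting results (`TwistsBothSigns`, helper687 and its teams); the equidistribution of the
tables of symbols is that of our `MP_696deb_nt.TreesOfPrimeTwists` (`Q155/KT`, with the bilinear sums of
`Y710`, `Y356` and Chebotarev's theorem of `Q283/TW`). New here (`Q155/KT/Chain`, `Law`, `Lln`, `Var`,
`Tr`, `Inf`): the chain of the kernels of the bordered symmetric matrices, the bound
`8 · 2^(n_D) · 2^(-|U ∖ V|)` for the correlation of the twists by `∏_U p_i` and `∏_V p_i`, the variance,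
and the infinite sequences.
-/

set_option autoImplicit false

open Finset

namespace Pool.Agent.Results.MP_8b7eba_nt.DivisorLawOfLargeNumbers

/-- coefficients of the twist `E_D : y² = x³ + A D x + B D` of `X_0(14)` -/
def A (D : ℤ) : ℤ := 5805 * D ^ 2

/-- coefficients of the twist `E_D : y² = x³ + A D x + B D` of `X_0(14)` -/
def B (D : ℤ) : ℤ := -285714 * D ^ 3

/-- number of points of `E_D` over `ZMod p`, the point at infinity included -/
noncomputable def N (D : ℤ) (p : ℕ) : ℕ :=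
  1 + Nat.card {z : ZMod p × ZMod p // z.2 ^ 2 = z.1 ^ 3 + (A D : ZMod p) * z.1 + (B D : ZMod p)}

/-- affine rational points of `E_D` -/
def RatPts (D : ℤ) : Set (ℚ × ℚ) := {z | z.2 ^ 2 = z.1 ^ 3 + (A D : ℚ) * z.1 + (B D : ℚ)}

/-- `f` is an entire function which equals the Euler product of `E_D` over the primes
`p ∤ 2 (4 A³ + 27 B²)` on `Re s > 3 / 2` -/
def IsL (D : ℤ) (f : ℂ → ℂ) : Prop :=
  Differentiable ℂ f ∧ ∀ s : ℂ, (3 : ℝ) / 2 < s.re →
    HasProd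
      (fun p : {p : ℕ // p.Prime ∧ ¬ ((p : ℤ) ∣ 2 * (4 * A D ^ 3 + 27 * B D ^ 2))} =>
        ((1 : ℂ) - (((p.1 : ℤ) + 1 - (N D p.1 : ℤ) : ℤ) : ℂ) * ((p.1 : ℂ) ^ (-s))
          + (p.1 : ℂ) ^ (1 - 2 * s))⁻¹)
      (f s)

/-- `L(E_D, s)` is entire, `L(E_D, 1) ≠ 0` and `E_D(ℚ)` is finite -/
def WeakBSD (D : ℤ) : Prop :=
  4 * A D ^ 3 + 27 * B D ^ 2 ≠ 0 ∧ (∃ f : ℂ → ℂ, IsL D f) ∧ (∀ f : ℂ → ℂ, IsL D f → f 1 ≠ 0) ∧
    (RatPts D).Finite

/-- the curve `E_D` over `ℚ` -/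
def E (D : ℤ) : WeierstrassCurve ℚ :=
  { a₁ := 0, a₂ := 0, a₃ := 0, a₄ := (A D : ℚ), a₆ := (B D : ℚ) }

/-- primes which split completely in `ℚ(i, √2, √-7)` -/
def Split (p : ℕ) : Prop := p.Prime ∧ p % 8 = 1 ∧ (p % 7 = 1 ∨ p % 7 = 2 ∨ p % 7 = 4)

/-- primes inert in `ℚ(√2)` and in `ℚ(√-7)` -/
def Inert (q : ℕ) : Prop :=
  q.Prime ∧ (q % 8 = 3 ∨ q % 8 = 5) ∧ (q % 7 = 3 ∨ q % 7 = 5 ∨ q % 7 = 6)

/-- the class of discriminants -/
def Adm (D : ℤ) : Prop := Squarefree D ∧ D % 4 = 1 ∧ (D % 7 = 1 ∨ D % 7 = 2 ∨ D % 7 = 4) ∧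
  ∀ p : ℕ, p.Prime → (p : ℤ) ∣ D → p ≠ 3 ∧ (Split p ∨ Inert p)

/-- `D` is in the class, `E_D(ℚ)` is finite and `Ш(E_D/ℚ)` has no element of order two -/
def Good (D : ℤ) : Prop :=
  Adm D ∧ Finite (E D).toAffine.Point ∧ ∀ x : Pool.Agent.TH841.SH.D.Sha (E D), 2 • x = 0 → x = 0

/-- the number of the split primes dividing `D` -/
def nSplit (D : ℤ) : ℕ := (D.natAbs.primeFactors.filter fun p => p % 8 = 1).card

/-- the share of the good numbers among the `D ∏_{i ∈ U} p_i`, `U ⊆ {1, …, k}` -/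
noncomputable def share (D : ℤ) {k : ℕ} (p : Fin k → ℕ) : ℝ :=
  (Nat.card {U : Finset (Fin k) // Good (D * ∏ i ∈ U, (p i : ℤ))} : ℝ) / 2 ^ k

/-- the `p_i` do not divide the elements of `𝒟` -/
def PrimeTo (𝒟 : Finset ℤ) {ι : Type} (p : ι → ℕ) : Prop := ∀ D ∈ 𝒟, ∀ i, ¬ (p i : ℤ) ∣ D

open Classical in
/-- the tuples of split primes up to `X` -/
noncomputable def tuples (k X : ℕ) : Finset (Fin k → ℕ) :=
  Fintype.piFinset fun _ : Fin k => (range (X + 1)).filter fun p => Split p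

theorem rank_iff {D : ℤ} (h : Y687.MQ.AdmD D) :
    (Finite (E D).toAffine.Point ∧ ∀ x : Pool.Agent.TH841.SH.D.Sha (E D), 2 • x = 0 → x = 0) ↔
      (Y687.MQ.matD D).det ≠ 0 := by
  obtain ⟨hP, hT, -, he⟩ := Y687.MQ.of_admD h
  have h1 := Z704.equivS Z702.f_COC Z702.f_LOT Z702.f_COB Z702.f_TOR Z702.f_LQ Z702.f_LG
    Z702.f_LP Z702.f_LIN Z702.f_TRN Z705.f_SELA Z705.f_SELB (Z705.cnd hP hT)
  have he' : ((Z700.pr (Y687.MQ.SP D) : ℕ) : ℤ) * Y687.DD (Y687.MQ.IP D) = D := he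
  rw [he'] at h1
  have hm : Y687.DD (Y687.MQ.IP D) = Z700.pr (Y687.MQ.IP D) ∨
      Y687.DD (Y687.MQ.IP D) = -(Z700.pr (Y687.MQ.IP D) : ℤ) := by
    refine Int.natAbs_eq_natAbs_iff.1 ?_
    rw [Y687.DD_natAbs, Int.natAbs_natCast]
    rfl
  rw [Y687.MQ.matD_eq, Y687.MQ.matT_iff hP hT, ← Y687.MQ.det_ind hP hT hm, h1]
  refine and_congr Iff.rfl (forall_congr' fun x => ?_)
  rw [two_nsmul]
  rfl

theorem good_iff {D : ℤ} : Good D ↔ Q155.KT.Gd D :=
  and_congr_right fun h => rank_iff h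

theorem weak_of_good {D : ℤ} (h : Good D) : WeakBSD D := by
  have hL : ∀ (D : ℤ) (f : ℂ → ℂ), IsL D f ↔ (Differentiable ℂ f ∧
      (∀ s : ℂ, (3 : ℝ) / 2 < s.re →
        HasProd (fun l : {l : ℕ // l.Prime ∧
            ¬ ((l : ℤ) ∣ 2 * (4 * (5805 * D ^ 2) ^ 3 +
              27 * (-285714 * D ^ 3) ^ 2))} =>
          Y687.fac (5805 * D ^ 2) (-285714 * D ^ 3) s l)
          (f s))) := by
    intro D f
    unfold IsL Y687.fac
    refine and_congr Iff.rfl (forall_congr' fun s => imp_congr Iff.rfl ?_)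
    have : ∀ l : ℕ, (l : ℤ) + 1 - (N D l : ℤ) = (l : ℤ) - (Nat.card {q : ZMod l × ZMod l //
        q.2 ^ 2 = q.1 ^ 3 + ((5805 * D ^ 2 : ℤ) : ZMod l) * q.1 +
          ((-285714 * D ^ 3 : ℤ) : ZMod l)} : ℤ) := by
      intro l
      unfold N A B
      push_cast
      ring
    simp only [this]
    rfl
  obtain ⟨hD, hdet⟩ := good_iff.1 h
  obtain ⟨⟨f, hf, hfp, hf1⟩, hfin⟩ := Y687.MQ.WB_D hD hdet
  have hM : D ≠ 0 := hD.1.ne_zero
  refine ⟨?_, ⟨f, (hL _ f).2 ⟨hf, hfp⟩⟩, ?_, hfin⟩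
  · have e : 4 * A D ^ 3 + 27 * B D ^ 2 = (4 * 5805 ^ 3 + 27 * 285714 ^ 2) * D ^ 6 := by
      unfold A B
      ring
    rw [e]
    exact mul_ne_zero (by norm_num) (pow_ne_zero 6 hM)
  · intro g hg
    obtain ⟨hg1, hg2⟩ := (hL _ g).1 hg
    rw [Y687.unique_f hg1 hf hg2 hfp]
    exact hf1

theorem not_dvd_iff {D : ℤ} (hD : D ≠ 0) {p : ℕ} (hp : p.Prime) :
    (¬ (p : ℤ) ∣ D) ↔ p ∉ D.natAbs.primeFactors := by
  rw [Nat.mem_primeFactors, Int.natCast_dvd]
  constructor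
  · rintro h ⟨-, h2, -⟩
    exact h h2
  · intro h h2
    exact h ⟨hp, h2, Int.natAbs_ne_zero.2 hD⟩

theorem primeTo_iff {𝒟 : Finset ℤ} (h : ∀ D ∈ 𝒟, Adm D) {ι : Type} {p : ι → ℕ}
    (hp : ∀ i, Split (p i)) : PrimeTo 𝒟 p ↔ ∀ i, p i ∉ Q155.KT.prm 𝒟 := by
  constructor
  · intro h1 i hi
    obtain ⟨D, hD, hi'⟩ := Finset.mem_biUnion.1 hi
    exact (not_dvd_iff (h D hD).1.ne_zero (hp i).1).1 (h1 D hD i) hi'
  · intro h1 D hD i
    refine (not_dvd_iff (h D hD).1.ne_zero (hp i).1).2 fun hi => ?_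
    exact h1 i (Finset.mem_biUnion.2 ⟨D, hD, hi⟩)

theorem share_eq {𝒟 : Finset ℤ} (h : ∀ D ∈ 𝒟, Adm D) {k : ℕ} {p : Fin k → ℕ}
    (hp : ∀ i, Split (p i)) (hinj : Function.Injective p) (hpR : ∀ i, p i ∉ Q155.KT.prm 𝒟) {D : ℤ}
    (hD : D ∈ 𝒟) :
    share D p = (Q155.KT.ng' D (Q155.KT.tab (Q155.KT.prm 𝒟) p) : ℝ) / 2 ^ k := by
  unfold share Q155.KT.ng'
  congr 2
  refine Nat.card_congr (Equiv.subtypeEquivRight fun U => ?_)
  have hpD : ∀ i, p i ∉ D.natAbs.primeFactors := fun i hi =>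
    hpR i (Finset.mem_biUnion.2 ⟨D, hD, hi⟩)
  rw [good_iff, ← Q155.KT.det_tab h hp hinj hpR hD U]
  exact ⟨fun h1 => h1.2, fun h1 => ⟨(Q155.KT.adm_prod (h D hD) hp hinj hpD U).1, h1⟩⟩

/-- **The law of large numbers over the divisors.** -/
theorem result :
    (∀ D : ℤ, Good D → WeakBSD D) ∧
    ∃ κ : ℝ, 0.4194 < κ ∧ κ < 0.4195 ∧
      Filter.Tendsto (fun m : ℕ => ∏ i ∈ range m, (1 - (1 / 2 : ℝ) ^ (2 * i + 1))) Filter.atTop
        (nhds κ) ∧
      ∀ 𝒟 : Finset ℤ, (∀ D ∈ 𝒟, Adm D) →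
        (∀ (k : ℕ) (ε : ℝ), 0 < ε → ∃ ℓ : ℝ,
          1 - (∑ D ∈ 𝒟, (2 : ℝ) ^ (nSplit D + 3)) * (7 / 8) ^ k / ε ^ 2 ≤ ℓ ∧
          Filter.Tendsto (fun X : ℕ => open Classical in
            (((tuples k X).filter fun p => Function.Injective p ∧ PrimeTo 𝒟 p ∧
              ∀ D ∈ 𝒟, |share D p - κ| < ε).card : ℝ) / ((tuples k X).card : ℝ))
            Filter.atTop (nhds ℓ)) ∧
        ∃ (k₀ : ℕ) (p : ℕ → ℕ), StrictMono p ∧ (∀ n, Split (p n)) ∧ PrimeTo 𝒟 p ∧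
          ∀ k : ℕ, k₀ ≤ k → ∀ D ∈ 𝒟, |share D (fun i : Fin k => p i) - κ| < (31 / 32 : ℝ) ^ k := by
  classical
  obtain ⟨g1, -, -, g4, g5⟩ := Pool.Agent.Y948.CQ.t_C2
  refine ⟨fun D => weak_of_good, Pool.Agent.Y703.CQ.c2, g4, g5, ?_, fun 𝒟 h => ⟨?_, ?_⟩⟩
  · rw [tendsto_iff_dist_tendsto_zero]
    refine squeeze_zero (fun n => dist_nonneg) (fun n => ?_)
      (tendsto_pow_atTop_nhds_zero_of_lt_one (by norm_num) (by norm_num : (1 / 4 : ℝ) < 1))
    rw [Real.dist_eq]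
    exact g1 n
  · intro k ε hε
    obtain ⟨ℓ, h1, h2⟩ := Q155.KT.lln 𝒟 h k hε
      (fun p => Function.Injective p ∧ PrimeTo 𝒟 p ∧
        ∀ D ∈ 𝒟, |share D p - Pool.Agent.Y703.CQ.c2| < ε) (by
      intro p hp
      refine and_congr_right fun hinj => ?_
      rw [primeTo_iff h hp]
      refine and_congr_right fun hpR => ?_
      refine forall_congr' fun D => forall_congr' fun hD => ?_
      rw [share_eq h hp hinj hpR hD])
    refine ⟨ℓ, ?_, ?_⟩
    · have hc : (∑ D ∈ 𝒟, (2 : ℝ) ^ (nSplit D + 3)) = Q155.KT.Cst 𝒟 := by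
        unfold Q155.KT.Cst
        refine Finset.sum_congr rfl fun D _ => ?_
        have e : (Y687.MQ.SP D).card = nSplit D := rfl
        rw [e, pow_add]
        ring
      rw [hc]
      exact h1
    · refine h2.congr fun X => ?_
      unfold Q155.KT.tup Q155.KT.spl tuples
      congr
  · obtain ⟨k₀, p, h1, h2, h3⟩ := Q155.KT.exists_primes h
    refine ⟨k₀, p, h1, fun n => (h2 n).1, ?_, fun k hk D hD => ?_⟩
    · exact (primeTo_iff h fun n => (h2 n).1).2 fun n => (h2 n).2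
    · rw [share_eq h (fun i => (h2 i).1) (fun a b hab => Fin.ext (h1.injective hab))
        (fun i => (h2 i).2) hD]
      exact h3 k hk D hD

end Pool.Agent.Results.MP_8b7eba_nt.DivisorLawOfLargeNumbers
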