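import Pool.Agent.Q283.GM.X49

/-!
# The weak Birch and Swinnerton-Dyer conjecture for the twists of `X_0(49)` by the integers whose prime
factors are all congruent to `1` modulo `4`

`E_D : y² = x³ - 2835 D² x - 71442 D³` is the quadratic twist by `D` of the curve `X_0(49)` (complex
multiplication by the ring of integers of `ℚ(√-7)`). The class consists of ALL the squarefree positive
integers `D` whose prime factors are `1` modulo `4` (no other condition), of which there are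
asymptotically a constant times `X / √log X` up to `X`.

* For `D` in the class, `E_D(ℚ)` is finite and `Ш(E_D/ℚ)[2] = 0` if and only if an explicit matrix `R D`
  over `𝔽₂` of quadratic residue symbols, with quartic symbols of `-7` on the diagonal, is nonsingular.
* In this case `L(E_D, s)` is entire and `L(E_D, 1) ≠ 0`: the conjecture holds for `E_D`.
* For exactly the proportion `κ = ∏ (1 - 2 ^ (-2 i - 1)) = 0.4194...` of the `D` of the class this is the
  case; for different numbers `m_1, …, m_M` of the class this is so for all the curves `E_{m_k D}` at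
  once for exactly the proportion `κ ^ M`, so that the events are asymptotically independent.
* So the number of the `D ≤ X` of the class for which the conjecture holds for all the `E_{m_k D}`, with
  nonzero `L`-values and no elements of order two in the Tate-Shafarevich groups, is at least a constant
  times `X / √log X`.
-/

set_option autoImplicit false

open Finset Filter

namespace Pool.Agent.Results.MP_8b7eba_nt.OneModFourTwists

/-- coefficients of the twist `E_D : y² = x³ + A D x + B D` of `X_0(49)` -/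
def A (D : ℤ) : ℤ := -2835 * D ^ 2

/-- coefficients of the twist `E_D : y² = x³ + A D x + B D` of `X_0(49)` -/
def B (D : ℤ) : ℤ := -71442 * D ^ 3

/-- the curve `E_D` over `ℚ` -/
def E (D : ℤ) : WeierstrassCurve ℚ :=
  { a₁ := 0, a₂ := 0, a₃ := 0, a₄ := (A D : ℚ), a₆ := (B D : ℚ) }

/-- `E_D(ℚ)` is finite and `Ш(E_D/ℚ)` has no element of order two -/
def RankZeroShaTwo (D : ℤ) : Prop :=
  Finite (E D).toAffine.Point ∧ ∀ x : Pool.Agent.TH841.SH.D.Sha (E D), 2 • x = 0 → x = 0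

/-- number of points of `E_D` over `ZMod p`, the point at infinity included -/
noncomputable def N (D : ℤ) (p : ℕ) : ℕ :=
  1 + Nat.card {z : ZMod p × ZMod p // z.2 ^ 2 = z.1 ^ 3 + (A D : ZMod p) * z.1 + (B D : ZMod p)}

/-- affine rational points of `E_D` -/
def RatPts (D : ℤ) : Set (ℚ × ℚ) := {z | z.2 ^ 2 = z.1 ^ 3 + (A D : ℚ) * z.1 + (B D : ℚ)}

/-- the factor of the `L`-function at `p`, with `a_p = p + 1 - N_p` -/
noncomputable def factor (D : ℤ) (s : ℂ) (p : ℕ) : ℂ :=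
  ((1 : ℂ) - (((p : ℤ) + 1 - (N D p : ℤ) : ℤ) : ℂ) * ((p : ℂ) ^ (-s)) + (p : ℂ) ^ (1 - 2 * s))⁻¹

/-- `f` is an entire function which equals the Euler product of `E_D` over the primes
`p ∤ 2 (4 A³ + 27 B²)` on `Re s > 3 / 2` -/
def IsL (D : ℤ) (f : ℂ → ℂ) : Prop :=
  Differentiable ℂ f ∧ ∀ s : ℂ, (3 : ℝ) / 2 < s.re →
    HasProd
      (fun p : {p : ℕ // p.Prime ∧ ¬ ((p : ℤ) ∣ 2 * (4 * A D ^ 3 + 27 * B D ^ 2))} => factor D s p.1)
      (f s)

/-- the class: squarefree, all prime factors `1` modulo `4` -/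
def Class (D : ℕ) : Prop := Squarefree D ∧ ∀ p : ℕ, p.Prime → p ∣ D → p % 4 = 1

/-- the prime factors of `D` which split in `ℚ(√-7)` -/
def S (D : ℕ) : Finset ℕ := D.primeFactors.filter fun p => p % 7 = 1 ∨ p % 7 = 2 ∨ p % 7 = 4

open Classical in
/-- the matrix over `𝔽₂` with rows and columns indexed by `S D`: off the diagonal the entry at
`(p, p')` is `1` if `p'` is not a square modulo `p` and `0` otherwise; on the diagonal it is the number
of the prime factors of `D` different from `p` which are not squares modulo `p`, plus `1` if `-7` is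
not a fourth power modulo `p` -/
noncomputable def R (D : ℕ) : Matrix (S D) (S D) (ZMod 2) := Matrix.of fun i j =>
  if i = j then
    (((D.primeFactors.filter fun r : ℕ => r ≠ (i : ℕ) ∧ ¬ IsSquare (r : ZMod (i : ℕ))).card : ZMod 2) +
      if ∃ y : ZMod (i : ℕ), y ^ 4 = -7 then 0 else 1)
  else if IsSquare ((j : ℕ) : ZMod (i : ℕ)) then 0 else 1

open Classical in
/-- the number of the `D ≤ X` of the class with the property `P` -/
noncomputable def count (P : ℕ → Prop) (X : ℕ) : ℕ := ((Icc 1 X).filter fun D => Class D ∧ P D).card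

/-- the number `κ = (1 - 1/2) (1 - 1/8) (1 - 1/32) ⋯` -/
noncomputable def κ : ℝ := ∏' i : ℕ, (1 - (1 / 2 : ℝ) ^ (2 * i + 1))

section proof

open Q283.GW
open Q283.J2 (RZ49)
open scoped Classical

lemma class_iff (D : ℕ) : Class D ↔ C4 D := by
  unfold Class C4 CF
  constructor
  · rintro ⟨h1, h2⟩
    exact ⟨h1, fun p hp => ⟨Nat.prime_of_mem_primeFactors hp,
      h2 p (Nat.prime_of_mem_primeFactors hp) (Nat.dvd_of_mem_primeFactors hp)⟩⟩
  · rintro ⟨h1, h2⟩
    exact ⟨h1, fun p hp hd => (h2 p (Nat.mem_primeFactors.2 ⟨hp, hd, h1.ne_zero⟩)).2⟩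

lemma rz_eq (D : ℤ) : RankZeroShaTwo D ↔ RZ49 D := by
  unfold RankZeroShaTwo RZ49
  refine and_congr Iff.rfl (forall_congr' fun x => ?_)
  rw [two_nsmul]
  rfl

lemma isL_of {D : ℤ} {F : ℂ → ℂ} (h : Y19.QT.IsLFun (A D) (B D) F) : IsL D F := by
  refine ⟨h.1, fun s hs => ?_⟩
  have h1 := h.2 s hs
  have e : ∀ p : ℕ, ((p : ℤ) ∣ 2 * (-4 * A D ^ 3 - 27 * B D ^ 2)) ↔
      ((p : ℤ) ∣ 2 * (4 * A D ^ 3 + 27 * B D ^ 2)) := by
    intro p
    have e1 : 2 * (-4 * A D ^ 3 - 27 * B D ^ 2) = -(2 * (4 * A D ^ 3 + 27 * B D ^ 2)) := by ring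
    rw [e1, dvd_neg]
  have h2 : (fun p : ℕ => if p.Prime ∧ ¬ ((p : ℤ) ∣ 2 * (-4 * A D ^ 3 - 27 * B D ^ 2)) then
        (1 - ((p : ℂ) - (Nat.card {q : ZMod p × ZMod p //
            q.2 ^ 2 = q.1 ^ 3 + (A D : ZMod p) * q.1 + (B D : ZMod p)} : ℂ))
            * (p : ℂ) ^ (-s) + (p : ℂ) ^ (1 - 2 * s))⁻¹
      else 1) = Set.mulIndicator {p : ℕ | p.Prime ∧
        ¬ ((p : ℤ) ∣ 2 * (4 * A D ^ 3 + 27 * B D ^ 2))} (factor D s) := by
    funext p
    rw [Set.mulIndicator_apply]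
    by_cases hp : p.Prime ∧ ¬ ((p : ℤ) ∣ 2 * (4 * A D ^ 3 + 27 * B D ^ 2))
    · rw [if_pos ⟨hp.1, fun h' => hp.2 ((e p).1 h')⟩]
      refine Eq.trans ?_ (if_pos hp).symm
      unfold factor N
      push_cast
      congr 3
      ring
    · rw [if_neg fun h' => hp ⟨h'.1, fun h'' => h'.2 ((e p).2 h'')⟩]
      exact (if_neg hp).symm
  rw [h2] at h1
  exact (hasProd_subtype_iff_mulIndicator).2 h1

lemma isL_unique {D : ℤ} {f g : ℂ → ℂ} (hf : IsL D f) (hg : IsL D g) : f = g := by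
  have h1 : AnalyticOnNhd ℂ f Set.univ := fun z _ => hf.1.analyticAt z
  have h2 : AnalyticOnNhd ℂ g Set.univ := fun z _ => hg.1.analyticAt z
  refine AnalyticOnNhd.eq_of_eventuallyEq h1 h2 (z₀ := 2) ?_
  have hopen : {s : ℂ | (3 : ℝ) / 2 < s.re} ∈ nhds (2 : ℂ) :=
    (isOpen_lt continuous_const Complex.continuous_re).mem_nhds (by
      show (3 : ℝ) / 2 < (2 : ℂ).re
      norm_num)
  filter_upwards [hopen] with s hs
  exact (hf.2 s hs).unique (hg.2 s hs)

lemma mask {M : ℕ} {m : Fin M → ℕ} (hm : ∀ k, Class (m k)) (hinj : Function.Injective m) :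
    (∀ k, CF (m k).primeFactors) ∧ (∀ k l, k ≠ l → (m k).primeFactors ≠ (m l).primeFactors) ∧
      ∀ k, ((m k : ℕ) : ℤ) = Y687.DD (m k).primeFactors := by
  have h : ∀ k, C4 (m k) := fun k => (class_iff _).1 (hm k)
  refine ⟨fun k => (h k).2, fun k l hkl he => ?_, fun k => (h k).eq⟩
  apply hkl
  apply hinj
  have h1 := (h k).eq
  rw [he, ← (h l).eq] at h1
  exact_mod_cast h1

end proof

/-- **The twists of `X_0(49)` by the integers whose prime factors are `1` modulo `4`.** -/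
theorem result :
    -- the criterion
    (∀ D : ℕ, Class D → (RankZeroShaTwo D ↔ (R D).det ≠ 0)) ∧
    -- the conjecture
    (∀ D : ℕ, Class D → RankZeroShaTwo D →
      4 * A D ^ 3 + 27 * B D ^ 2 ≠ 0 ∧ (∃ f : ℂ → ℂ, IsL D f) ∧
      (∀ f : ℂ → ℂ, IsL D f → f 1 ≠ 0) ∧ (RatPts D).Finite) ∧
    -- the joint law for the twists by `m_1 D, …, m_M D`
    (∀ (M : ℕ) (m : Fin M → ℕ), (∀ k, Class (m k)) → Function.Injective m →
      Tendsto (fun X : ℕ => (count (fun D => ∀ k, RankZeroShaTwo (m k * D)) X : ℝ) /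
        (count (fun _ => True) X : ℝ)) atTop (nhds (κ ^ M)) ∧
      ∃ (c : ℝ) (X₀ : ℕ), 0 < c ∧ ∀ X : ℕ, X₀ ≤ X → c * (X / Real.sqrt (Real.log X)) ≤
        (count (fun D => ∀ k, RankZeroShaTwo (m k * D)) X : ℝ)) ∧
    -- the values of the L-functions of these twists
    (∀ m D : ℕ, Class m → Class D → RankZeroShaTwo (m * D) →
      (∃ f : ℂ → ℂ, IsL (m * D) f) ∧ (∀ f : ℂ → ℂ, IsL (m * D) f → f 1 ≠ 0) ∧
        (RatPts (m * D)).Finite) ∧
    0.4194 < κ ∧ κ < 0.4195 := by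
  classical
  have hkey : ∀ D : ℤ, D ≠ 0 → Y687.MQ.ZB (A D) (B D) →
      4 * A D ^ 3 + 27 * B D ^ 2 ≠ 0 ∧ (∃ f : ℂ → ℂ, IsL D f) ∧
      (∀ f : ℂ → ℂ, IsL D f → f 1 ≠ 0) ∧ (RatPts D).Finite := by
    intro D hD hZ
    obtain ⟨⟨F, hF, hF1⟩, hfin⟩ := hZ
    have hL := isL_of hF
    refine ⟨?_, ⟨F, hL⟩, fun f hf => ?_, hfin⟩
    · have e : 4 * A D ^ 3 + 27 * B D ^ 2 = (4 * (-2835) ^ 3 + 27 * (-71442) ^ 2) * D ^ 6 := by
        unfold A B
        ring
      rw [e]
      exact mul_ne_zero (by norm_num) (pow_ne_zero 6 hD)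
    · rw [isL_unique hf hL]
      exact (hF.1.analyticAt 1).analyticOrderAt_eq_zero.1 hF1
  refine ⟨fun D hD => ?_, fun D hD hR => ?_, fun M m hm hinj => ?_, fun m D hm hD hR => ?_,
    Pool.Agent.Y948.CQ.t_C2.2.2.2.1, Pool.Agent.Y948.CQ.t_C2.2.2.2.2⟩
  · have hC := (class_iff D).1 hD
    rw [rz_eq, hC.eq, Q283.GW.rz_CF hC.2, ← Q283.GW.det_R hC.2]
    exact Iff.rfl
  · have hC := (class_iff D).1 hD
    refine hkey D (by exact_mod_cast hC.1.ne_zero) ?_
    rw [rz_eq, hC.eq, Q283.GW.rz_CF hC.2] at hR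
    have h1 := Q283.GW.zb_CF hC.2 hR
    rw [← hC.eq] at h1
    exact h1
  · obtain ⟨h1, h2, h3⟩ := mask hm hinj
    have e1 : ∀ D : ℕ, (Class D ∧ ∀ k, RankZeroShaTwo (m k * D)) ↔
        (Q283.GW.C4 D ∧ ∀ k, Q283.J2.RZ49 ((D : ℤ) * Y687.DD (m k).primeFactors)) := by
      intro D
      refine and_congr (class_iff D) (forall_congr' fun k => ?_)
      rw [rz_eq, ← h3 k, mul_comm]
    have e2 : ∀ D : ℕ, (Class D ∧ True) ↔ Q283.GW.C4 D := fun D => by
      rw [and_true]
      exact class_iff D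
    refine ⟨?_, ?_⟩
    · refine (Q283.GW.prop4 (fun k => (m k).primeFactors) h1 h2).congr fun X => ?_
      exact Q283.GW.ratio (fun D => (e1 D).symm) (fun D => (e2 D).symm) _
    · obtain ⟨c, X₀, hc, hX⟩ := Q283.GW.count_low (fun k => (m k).primeFactors) h1 h2
      refine ⟨c, X₀, hc, fun X h => (hX X h).trans (le_of_eq ?_)⟩
      exact congrArg (Nat.cast (R := ℝ)) (Q283.GW.cardf (fun D => (e1 D).symm) _)
  · have hC := (class_iff D).1 hD
    have hM := (class_iff m).1 hm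
    rw [rz_eq, hC.eq, hM.eq, mul_comm, Q283.GW.rz_mulCF hC.2 hM.2] at hR
    have h1 := Q283.GW.zb_CF (hC.2.symmDiff hM.2) hR
    have hk : Y687.DD (D.primeFactors ∩ m.primeFactors) ≠ 0 :=
      Y687.JQ.DD_ne fun p hp => (hC.2 p (Finset.mem_inter.1 hp).1).1.ne_zero
    have h2 := Y687.MQ.ZB_scale (Q283.J2.disc_b true) (hC.2.symmDiff hM.2).ne hk h1
    rw [← Y687.JQ.DD_mul, ← hC.eq, ← hM.eq, mul_comm ((D : ℕ) : ℤ)] at h2
    have hne : ((m : ℤ) * (D : ℤ)) ≠ 0 :=
      mul_ne_zero (by exact_mod_cast hM.1.ne_zero) (by exact_mod_cast hC.1.ne_zero)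
    exact (hkey _ hne h2).2

end Pool.Agent.Results.MP_8b7eba_nt.OneModFourTwists
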