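import Mathlib
import Pool.Agent.Y703.CX.Rank
import Pool.Agent.Q283.Q3.Ku

/-!
# Selmer groups, ranks and the weak conjecture in sequences of cubic twists over `ℚ`

`E_N : y² + N y = x³` over `ℚ` is `3`-isogenous to the cubic twist `C_N : y² = x³ - 432 N²`, that is
`x³ + y³ = N`, and has the same rank and `L`-function. Let `m_0, m_1, m_2, …` be ANY infinite sequence of
different squarefree numbers, `1` modulo `9`, with all prime divisors `1` modulo `3`, and let `D` run
through ALL squarefree numbers prime to `3`, not `±1` modulo `9`, with exactly one prime divisor `2`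
modulo `3` (and any number of prime divisors `1` modulo `3`), ordered by size.

* For every `D` and `k` the Selmer group of the endomorphism `√-3` of `E_{D m_k}` over `ℚ(√-3)` has order
  `3 ^ (2 r + 1)` for some `r = r_k(D)`, the rank of `E_{D m_k}(ℚ)` is at most `2 r`, and `r = 0` if and
  only if `E_{D m_k}(ℚ)` is finite and `Ш(E_{D m_k}/ℚ)[3^∞] = 0`; in this case `L(C_{D m_k}, s)` is entire,
  `L(C_{D m_k}, 1) ≠ 0` and `C_{D m_k}(ℚ)` is finite, so the weak conjecture holds.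
* JOINT LAW: for every `n` and EVERY set `T` of vectors the proportion of the `D` with
  `(r_0(D), …, r_{n-1}(D))` in `T` tends to the measure of `T` for the product of the laws
  `law r = c 3^r / ((3 - 1)² (9 - 1)² ⋯ (3^r - 1)²)`, `c = ∏ (1 - 3^{-i})` (the law of the corank of a large
  square matrix over the field with three elements).
* EMPIRICAL LAW, exponential rate: for every set `T` of numbers with measure `p`, every `n` and `ε` the set
  of the `D` for which the frequency of the `k < n` with `r_k(D)` in `T` differs from `p` by at least `ε` has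
  a relative density, which is at most `2 exp (- ε² n / 4)`.
* AVERAGE RANK: the average of the numbers `min (rank E_{D m_k}(ℚ), 2 B)` over the `k < n` is less than
  `0.92 + ε` for all `D` outside a set of upper relative density at most `2 B exp (- ε² n / (16 B²))`.
* For every `r` and `N`, for `100 %` of the `D` at least `N` of the Selmer groups have order
  `3 ^ (2 r + 1)`.
-/

set_option autoImplicit false

open scoped Classical

namespace Pool.Agent.Results.MP_8b7eba_nt.RanksInTwistSequences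

open Filter WeierstrassCurve
open Pool.Agent.TH841.SH.D (Coch)
open Pool.Agent.TH841.NF.D (IsShaCoc)

/-- The curve `E_N : y² + N y = x³`. -/
def curve {F : Type} [Field F] (N : F) : WeierstrassCurve F := ⟨0, 0, N, 0, 0⟩

/-- The Selmer group of the endomorphism `√-3` of `E_N` over the field `K` of third roots of unity: the
continuous cocycles with values in its kernel `{0, (0, 0), (0, -N)}` (the Galois group acts trivially on
it, so these cocycles are the classes) that are coboundaries in `E_N` at all the places of `K`. -/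
def Sel (K : Type) [Field K] [NumberField K] (N : ℕ) : Set (Coch (curve (N : K))) :=
  {f | IsShaCoc (curve (N : K)) f ∧ ∀ σ, f σ = 0 ∨ ∃ y h, f σ = Affine.Point.some 0 y h}

/-- the rank of `E_N(ℚ)` -/
noncomputable def rank (N : ℕ) : ℕ := Module.finrank ℤ (curve (N : ℚ)).toAffine.Point

/-- `E_N(ℚ)` is finite and `Ш(E_N/ℚ)[3^∞] = 0` -/
def Good (N : ℕ) : Prop :=
  Finite (curve (N : ℚ)).toAffine.Point ∧
    ∀ (n : ℕ) (x : Pool.Agent.TH841.SH.D.Sha (curve (N : ℚ))), 3 ^ n • x = 0 → x = 0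

/-- The weak conjecture for `C_N : y² = x³ + b`, `b = - 432 N²`, with both sides false: the Euler product
over the primes `p ∤ 2 (4 A³ + 27 B²)`, `A = 0`, `B = b`, extends to an entire function `F` with
`F 1 ≠ 0`, and `C_N(ℚ)` is finite. -/
def WeakHolds (N : ℕ) : Prop :=
  ∃ b : ℤ, b = -432 * (N : ℤ) ^ 2 ∧ b ≠ 0 ∧
    (∃ F : ℂ → ℂ, Differentiable ℂ F ∧
      (∀ s : ℂ, (3 : ℝ) / 2 < s.re →
        HasProd
          (fun p : ℕ =>
            if p.Prime ∧ ¬ ((p : ℤ) ∣ 2 * (4 * 0 ^ 3 + 27 * b ^ 2)) then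
              (1 - ((p : ℂ) - (Nat.card {q : ZMod p × ZMod p // q.2 ^ 2 = q.1 ^ 3 + (b : ZMod p)} : ℂ))
                  * (p : ℂ) ^ (-s) + (p : ℂ) ^ (1 - 2 * s))⁻¹
            else 1)
          (F s)) ∧ F 1 ≠ 0) ∧
    Finite (WeierstrassCurve.toAffine (⟨0, 0, 0, 0, (b : ℚ)⟩ : WeierstrassCurve ℚ)).Point

/-- the class: `D` squarefree, prime to `3`, not `±1` modulo `9`, exactly one prime factor
congruent to `2` modulo `3` -/
def Class (D : ℕ) : Prop :=
  Squarefree D ∧ ¬ 3 ∣ D ∧ D % 9 ≠ 1 ∧ D % 9 ≠ 8 ∧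
    ∃ q : ℕ, q.Prime ∧ q % 3 = 2 ∧ q ∣ D ∧ ∀ p : ℕ, p.Prime → p ∣ D → p ≠ q → p % 3 = 1

/-- the multipliers: different squarefree numbers, `1` modulo `9`, all prime divisors `1` modulo `3` -/
structure Multipliers (m : ℕ → ℕ) : Prop where
  inj : Function.Injective m
  sqf : ∀ k, Squarefree (m k)
  nine : ∀ k, m k % 9 = 1
  one : ∀ (k p : ℕ), p.Prime → p ∣ m k → p % 3 = 1

/-- the number of the `D ≤ X` in the class with the property `P` -/
noncomputable def count (P : ℕ → Prop) (X : ℕ) : ℕ :=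
  ((Finset.Icc 1 X).filter fun D => Class D ∧ P D).card

/-- the proportion of the `D ≤ X` in the class with the property `P` -/
noncomputable def proportion (P : ℕ → Prop) (X : ℕ) : ℝ :=
  (count P X : ℝ) / (count (fun _ => True) X : ℝ)

/-- `c = ∏_{i ≥ 1} (1 - 3^{-i})` -/
noncomputable def c : ℝ := ∏' i : ℕ, (1 - (1 / 3 : ℝ) ^ (i + 1))

/-- the law of the coranks of large square matrices over the field with three elements -/
noncomputable def law (r : ℕ) : ℝ := c * 3 ^ r / ∏ i ∈ Finset.range r, ((3 : ℝ) ^ (i + 1) - 1) ^ 2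

/-- the Selmer group of `E_N` over `K` has order `3 ^ (2 r + 1)` for some `r` in `T` -/
def SelIn (K : Type) [Field K] [NumberField K] (T : Set ℕ) (N : ℕ) : Prop :=
  ∃ r ∈ T, (Sel K N).ncard = 3 ^ (2 * r + 1)

/-- the frequency of the `k < n` for which the Selmer group of `E_{D m_k}` has order `3 ^ (2 r + 1)`,
`r` in `T` -/
noncomputable def frequency (K : Type) [Field K] [NumberField K] (m : ℕ → ℕ) (T : Set ℕ) (n D : ℕ) : ℝ :=
  (((Finset.range n).filter fun k => SelIn K T (D * m k)).card : ℝ) / n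

/-- the average over the `k < n` of the ranks of the `E_{D m_k}`, truncated at `B` -/
noncomputable def averageRank (m : ℕ → ℕ) (B n D : ℕ) : ℝ :=
  (∑ k ∈ Finset.range n, ((min (rank (D * m k)) B : ℕ) : ℝ)) / n

section proof

open Q283.Q3B Q283.Q3N
open Q283.Q3 (cq cq_eq cq_ge sum_cq c3_pos)

theorem law_eq (r : ℕ) : cq r = law r := cq_eq r

theorem sel_card (K : Type) [Field K] [NumberField K]
    (j : Pool.Agent.Y692.QS.Ei ≃+* NumberField.RingOfIntegers K) {N : ℕ}
    (hC : Pool.Agent.Y703.CT.Cls N) : (Sel K N).ncard = 3 ^ (2 * rr N + 1) := (sel_N K j hC).1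

theorem good_iff (N : ℕ) : Good N ↔ Pool.Agent.Y703.CT.Triv3 N := by
  have h : Pool.Agent.Y703.CT.EQ (Pool.Agent.Y703.CT.WD N) = curve (N : ℚ) := by
    unfold Pool.Agent.Y703.CT.EQ Pool.Agent.Y703.CT.WD curve WeierstrassCurve.map
    simp
  unfold Good Pool.Agent.Y703.CT.Triv3
  rw [h]

theorem class_iff (D : ℕ) : Class D ↔ Squarefree D ∧ Pool.Agent.Y703.CT.Cls D := by
  unfold Class Pool.Agent.Y703.CT.Cls Pool.Agent.Y703.CT.Base
  constructor
  · rintro ⟨h1, h2, h3, h4, h5⟩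
    refine ⟨h1, ⟨h1.ne_zero, h2, ?_⟩, h3, h4, h5⟩
    intro p hp h
    have h6 : p * p ∣ D := (Dvd.intro p (by ring)).trans h
    exact hp.one_lt.ne' (Nat.isUnit_iff.1 (h1 p h6))
  · rintro ⟨h1, ⟨h6, h2, h7⟩, h3, h4, h5⟩
    exact ⟨h1, h2, h3, h4, h5⟩

theorem seq {m : ℕ → ℕ} (h : Multipliers m) : Seq m where
  inj := h.inj
  adm k := ⟨h.nine k, fun p hp hd => ⟨h.one k p hp hd, fun h3 => by
    have h6 : p * p ∣ m k := (Dvd.intro p (by ring)).trans h3
    exact hp.one_lt.ne' (Nat.isUnit_iff.1 (h.sqf k p h6))⟩⟩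
  sqf := h.sqf

theorem cls {m : ℕ → ℕ} (h : Multipliers m) {D : ℕ} (hD : Class D) (k : ℕ) :
    Pool.Agent.Y703.CT.Cls (D * m k) := by
  have h1 := (class_iff D).1 hD
  exact cls_mul' h1.1 h1.2 ((seq h).adm k) (h.sqf k)

/-- translation of the proportions -/
theorem prop_eq (P Q : ℕ → Prop) (h : ∀ D, Class D → (Q D ↔ P D)) (X : ℕ) :
    (((SN X).filter fun D => Q D).card : ℝ) / ((SN X).card : ℝ) = proportion P X := by
  unfold proportion count SN
  rw [Finset.filter_filter]
  congr 2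
  · refine Pool.Agent.XLK.fcc fun D _ => ?_
    rw [← class_iff]
    exact and_congr_right fun hD => h D hD
  · refine Pool.Agent.XLK.fcc fun D _ => ?_
    rw [← class_iff]
    exact ⟨fun h => ⟨h, trivial⟩, fun h => h.1⟩

theorem selIn_iff (K : Type) [Field K] [NumberField K] (j : Pool.Agent.Y692.QS.Ei ≃+* NumberField.RingOfIntegers K)
    {N : ℕ} (hC : Pool.Agent.Y703.CT.Cls N) (T : Set ℕ) : SelIn K T N ↔ rr N ∈ T := by
  have h1 := sel_card K j hC
  constructor
  · rintro ⟨r, hr, h2⟩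
    rw [h1] at h2
    rw [pow_inj h2]
    exact hr
  · intro h
    exact ⟨_, h, h1⟩

theorem weak {N : ℕ} (hC : Pool.Agent.Y703.CT.Cls N) (hT : Pool.Agent.Y703.CT.Triv3 N) :
    WeakHolds N := by
  have hN := (triv_iff hC).1 hT
  have hD0 : (N : ℤ) ≠ 0 := by exact_mod_cast hC.1.1
  obtain ⟨F, h1, h2, h3, h4⟩ := Pool.Agent.Y703.CX.rank_form hC hN
  refine ⟨_, rfl, by positivity, ⟨F, h1, fun s hs => ?_, ?_⟩, ?_⟩
  · refine (h2 s hs).congr_fun ?_
    intro p
    have e1 : (2 * (4 * 0 ^ 3 + 27 * (-432 * (N : ℤ) ^ 2) ^ 2) : ℤ) =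
        -(2 * (-4 * 0 ^ 3 - 27 * (-432 * (N : ℤ) ^ 2) ^ 2)) := by ring
    rw [e1]
    simp only [dvd_neg, Int.cast_zero, zero_mul, add_zero]
  · exact (h1.analyticAt 1).analyticOrderAt_eq_zero.1 h3
  · exact Pool.Agent.Y687.finite_pt_of_set (Pool.Agent.Y703.CX.fin_pts hD0 hT.1)

end proof

open Q283.Q3B Q283.Q3N in
open Q283.Q3 (cq cq_eq cq_ge sum_cq c3_pos) in
theorem result (K : Type) [Field K] [NumberField K] [IsCyclotomicExtension {3} ℚ K]
    (m : ℕ → ℕ) (hm : Multipliers m) :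
    (∀ D : ℕ, Class D → ∀ k, ∃ r : ℕ, (Sel K (D * m k)).ncard = 3 ^ (2 * r + 1) ∧
      rank (D * m k) ≤ 2 * r ∧ (r = 0 ↔ Good (D * m k)) ∧ (r = 0 → WeakHolds (D * m k))) ∧
    (∀ (n : ℕ) (T : Set (Fin n → ℕ)), Tendsto
      (proportion fun D => ∃ r ∈ T, ∀ k : Fin n, (Sel K (D * m k)).ncard = 3 ^ (2 * r k + 1)) atTop
      (nhds (∑' r : T, ∏ k, law (r.1 k)))) ∧
    (∀ (T : Set ℕ) (n : ℕ), 0 < n → ∀ ε : ℝ, 0 < ε → ∃ l : ℝ, l ≤ 2 * Real.exp (-(ε ^ 2 * n / 4)) ∧
      Tendsto (proportion fun D => ε ≤ |frequency K m T n D - ∑' r : T, law r|) atTop (nhds l)) ∧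
    (∀ B n : ℕ, 0 < B → 0 < n → ∀ ε δ : ℝ, 0 < ε → 0 < δ → ∀ᶠ X : ℕ in atTop,
      proportion (fun D => 0.92 + ε ≤ averageRank m (2 * B) n D) X ≤
        2 * B * Real.exp (-(ε ^ 2 * n / (16 * B ^ 2))) + δ) ∧
    (∀ r N : ℕ, Tendsto (proportion fun D => ∃ F : Finset ℕ, F.card = N ∧ ∀ k ∈ F,
      (Sel K (D * m k)).ncard = 3 ^ (2 * r + 1)) atTop (nhds 1)) ∧
    (∃ (a : ℝ) (X₀ : ℕ), 0 < a ∧ ∀ X : ℕ, X₀ ≤ X →
      a * (X / Real.sqrt (Real.log X)) ≤ (count (fun _ => True) X : ℝ)) ∧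
    HasSum law 1 ∧ 0.56 < law 0 ∧ law 0 < 0.5602 := by
  obtain ⟨⟨j, -⟩, -⟩ := Pool.Agent.Y455.CTK.jex K
  have hs := seq hm
  have hlaw : cq = law := funext law_eq
  have hL := law_seq hs
  have hc : 0.56 < c ∧ c < 0.5602 := by
    obtain ⟨h1, -, -, h4⟩ := Pool.Agent.Y461.CX.t_C3
    refine ⟨h4, ?_⟩
    have h5 := (abs_le.1 (h1 10)).1
    have h6 : ∏ i ∈ Finset.range 10, (1 - (1 / 3 : ℝ) ^ (i + 1)) < 0.56015 := by
      norm_num [Finset.prod_range_succ]
    have h7 : (1 / 3 : ℝ) ^ 10 < 0.00002 := by norm_num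
    have h8 : c = Pool.Agent.Y703.CX.c3 := rfl
    rw [h8]
    linarith
  refine ⟨fun D hD k => ?_, fun n T => ?_, fun T n hn ε hε => ?_, fun B n hB hn ε δ hε hδ => ?_,
    fun r N => ?_, ?_, ?_, ?_⟩
  · have hC := cls hm hD k
    obtain ⟨h1, h2, h3⟩ := sel_N K j hC
    exact ⟨_, h1, h2, h3.trans (good_iff _).symm, fun h => weak hC (h3.1 h)⟩
  · have h1 := law_rr (fun k : Fin n => m k) (fun k => hs.adm _) (fun k => hs.sqf _)
      (fun a b hab => Fin.ext (hs.inj hab)) T
    rw [hlaw] at h1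
    refine h1.congr fun X => ?_
    refine prop_eq _ _ (fun D hD => ?_) X
    constructor
    · intro h
      exact ⟨_, h, fun k => sel_card K j (cls hm hD k)⟩
    · rintro ⟨r, hr, h⟩
      have e : (fun k : Fin n => rr (D * m k)) = r := by
        funext k
        have h2 := h k
        rw [sel_card K j (cls hm hD k)] at h2
        exact pow_inj h2
      rw [e]
      exact hr
  · have hms : 0 ≤ ms T ∧ ms T ≤ 1 := by
      refine ⟨(ms_hasSum T).nonneg fun r => ?_, hasSum_le (fun r => ?_) (ms_hasSum T) sum_cq⟩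
      · split_ifs
        · exact cq_ge r
        · exact le_rfl
      · split_ifs
        · exact le_rfl
        · exact cq_ge r
    obtain ⟨l, h1, h2⟩ := Q283.Bin.lln_exp hms.1 hms.2 (Q283.Bin.pat_T sum_cq cq_ge ne_SN hL T) n hn ε hε
    refine ⟨l, h1, h2.congr fun X => ?_⟩
    refine prop_eq _ _ (fun D hD => ?_) X
    have e : (((Finset.range n).filter fun k => rr (D * m k) ∈ T).card : ℝ) / n =
        frequency K m T n D := by
      unfold frequency
      congr 2
      exact Q283.Bin.fcc fun k _ => (selIn_iff K j (cls hm hD k) T).symm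
    have e2 : ms T = ∑' r : T, law r := by
      unfold ms
      rw [hlaw]
    rw [e, e2]
  · have hmean : 2 * (∑' r : ℕ, (r : ℝ) * cq r) ≤ 0.92 := by
      have h1 := mean_eq
      have h2 : Pool.Agent.Y703.CX.c3 < 0.5602 := hc.2
      have h3 : (3 / 4 + 9 / 128 * (100 / 99) : ℝ) ≤ 0.82103 := by norm_num
      have h4 : (3 / 4 + 9 / 128 * (100 / 99) : ℝ) * Pool.Agent.Y703.CX.c3 ≤ 0.82103 * 0.5602 :=
        mul_le_mul h3 h2.le c3_pos.le (by norm_num)
      have h5 : (0.82103 * 0.5602 : ℝ) ≤ 0.46 := by norm_num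
      linarith
    have h1 := avg ne_SN hL (fun k D => rank (D * m k)) (fun X D hD k => by
      have hD' := (class_iff D).2 (mem_SN.1 hD).2
      exact (sel_N K j (cls hm hD' k)).2.1) B n hB hn hε hδ
    filter_upwards [h1] with X hX
    rw [← prop_eq _ (fun D => 0.92 + ε ≤ averageRank m (2 * B) n D) (fun D _ => Iff.rfl) X]
    refine le_trans (div_le_div_of_nonneg_right ?_ (Nat.cast_nonneg _)) hX
    rw [Nat.cast_le]
    refine Finset.card_le_card fun D hD => ?_
    rw [Finset.mem_filter] at hD ⊢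
    refine ⟨hD.1, le_trans ?_ hD.2⟩
    linarith
  · have hr : 0 < ∑' s : ({r} : Set ℕ), cq s := by
      rw [tsum_singleton r cq, cq_eq]
      have : (0 : ℝ) < ∏ i ∈ Finset.range r, ((3 : ℝ) ^ (i + 1) - 1) ^ 2 := by
        refine Finset.prod_pos fun i _ => pow_pos ?_ 2
        have : (3 : ℝ) ^ 1 ≤ 3 ^ (i + 1) := pow_le_pow_right₀ (by norm_num) (by omega)
        linarith
      have := c3_pos
      positivity
    refine (Q283.Bin.many_T sum_cq cq_ge ne_SN hL {r} hr N).congr fun X => ?_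
    refine prop_eq _ _ (fun D hD => ?_) X
    refine exists_congr fun F => and_congr_right fun _ => forall_congr' fun k =>
      forall_congr' fun _ => ?_
    rw [Set.mem_singleton_iff, sel_card K j (cls hm hD k)]
    exact ⟨fun h => by rw [h], fun h => pow_inj h⟩
  · obtain ⟨a, X₀, ha, h⟩ := low_SN
    refine ⟨a, X₀, ha, fun X hX => (h X hX).trans (le_of_eq ?_)⟩
    unfold count SN
    congr 1
    refine Pool.Agent.XLK.fcc fun D _ => ?_
    rw [← class_iff]
    exact ⟨fun h => ⟨h, trivial⟩, fun h => h.1⟩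
  · rw [← hlaw]
    exact sum_cq
  · unfold law
    rw [Finset.prod_range_zero, pow_zero, mul_one, div_one]
    exact hc

end Pool.Agent.Results.MP_8b7eba_nt.RanksInTwistSequences
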