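import Pool.Agent.Q283.GM.X49
import Pool.Agent.Q84.MB.C2
import Pool.Agent.Q84.MB.C3

/-!
# One prime for all the small twists of `X_0(49)`

`E_D : y² = x³ - 2835 D² x - 71442 D³` is the quadratic twist by `D` of the curve `X_0(49)`. The class consists of
the squarefree positive integers all of whose prime factors are `1` modulo `4`.

For every large `x` there is a small exceptional set `S` of primes (at most `(log x) ^ (49 / 50)` of them, all
larger than a given bound `Z`) such that for at least `x ^ (1 - ε)` primes `p ≤ x` the weak Birch and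
Swinnerton-Dyer conjecture holds for ALL the twists `E_{D p}`, where `D` runs through a huge set of
integers of the class whose prime factors are at most `δ log x` and outside `S` (there are more such integers
than any power of `log x`, and their sizes reach a power of `x`).

The criterion over `ℚ` and the values of the `L`-functions are the theorems of `Q283`, `Y698` (see
`OneModFourTwists`); new are the primes with prescribed symbols modulo almost all small primes
(`Pool/Agent/Q84/MB`, based on the relative Bombieri-Vinogradov theorem of `H378R2`).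
-/

set_option autoImplicit false

open Finset Filter

namespace Pool.Agent.Results.MP_8b7eba_nt.SimultaneousTwists

/-- coefficients of the twist `E_D : y² = x³ + A D x + B D` of `X_0(49)` -/
def A (D : ℤ) : ℤ := -2835 * D ^ 2

/-- coefficients of the twist `E_D : y² = x³ + A D x + B D` of `X_0(49)` -/
def B (D : ℤ) : ℤ := -71442 * D ^ 3

/-- the curve `E_D` over `ℚ` -/
def E (D : ℤ) : WeierstrassCurve ℚ :=
  { a₁ := 0, a₂ := 0, a₃ := 0, a₄ := (A D : ℚ), a₆ := (B D : ℚ) }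

/-- `E_D(ℚ)` is finite and `Ш(E_D/ℚ)` has no element of order two -/
def RankZeroShaTwo (D : ℤ) : Prop :=
  Finite (E D).toAffine.Point ∧ ∀ x : Pool.Agent.TH841.SH.D.Sha (E D), 2 • x = 0 → x = 0

/-- number of points of `E_D` over `ZMod p`, the point at infinity included -/
noncomputable def N (D : ℤ) (p : ℕ) : ℕ :=
  1 + Nat.card {z : ZMod p × ZMod p // z.2 ^ 2 = z.1 ^ 3 + (A D : ZMod p) * z.1 + (B D : ZMod p)}

/-- affine rational points of `E_D` -/
def RatPts (D : ℤ) : Set (ℚ × ℚ) := {z | z.2 ^ 2 = z.1 ^ 3 + (A D : ℚ) * z.1 + (B D : ℚ)}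

/-- the factor of the `L`-function at `p`, with `a_p = p + 1 - N_p` -/
noncomputable def factor (D : ℤ) (s : ℂ) (p : ℕ) : ℂ :=
  ((1 : ℂ) - (((p : ℤ) + 1 - (N D p : ℤ) : ℤ) : ℂ) * ((p : ℂ) ^ (-s)) + (p : ℂ) ^ (1 - 2 * s))⁻¹

/-- `f` is an entire function which equals the Euler product of `E_D` over the primes
`p ∤ 2 (4 A³ + 27 B²)` on `Re s > 3 / 2` -/
def IsL (D : ℤ) (f : ℂ → ℂ) : Prop :=
  Differentiable ℂ f ∧ ∀ s : ℂ, (3 : ℝ) / 2 < s.re →
    HasProd
      (fun p : {p : ℕ // p.Prime ∧ ¬ ((p : ℤ) ∣ 2 * (4 * A D ^ 3 + 27 * B D ^ 2))} => factor D s p.1)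
      (f s)

/-- the conjecture for `E_D`, with `L(E_D, 1) ≠ 0`: the curve is nonsingular, its `L`-function is entire and does
not vanish at `1`, and `E_D(ℚ)` is finite -/
def Nonvanishing (D : ℤ) : Prop :=
  4 * A D ^ 3 + 27 * B D ^ 2 ≠ 0 ∧ (∃ f : ℂ → ℂ, IsL D f) ∧ (∀ f : ℂ → ℂ, IsL D f → f 1 ≠ 0) ∧
    (RatPts D).Finite

/-- the class: squarefree, all prime factors `1` modulo `4` -/
def Class (D : ℕ) : Prop := Squarefree D ∧ ∀ p : ℕ, p.Prime → p ∣ D → p % 4 = 1

/-- the prime factors of `D` which split in `ℚ(√-7)` -/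
def splitPrimes (D : ℕ) : Finset ℕ := D.primeFactors.filter fun p => p % 7 = 1 ∨ p % 7 = 2 ∨ p % 7 = 4

open Classical in
/-- the matrix over `𝔽₂` with rows and columns indexed by `splitPrimes D`: off the diagonal the entry at
`(p, p')` is `1` if `p'` is not a square modulo `p` and `0` otherwise; on the diagonal it is the number
of the prime factors of `D` different from `p` which are not squares modulo `p`, plus `1` if `-7` is
not a fourth power modulo `p` -/
noncomputable def R (D : ℕ) : Matrix (splitPrimes D) (splitPrimes D) (ZMod 2) := Matrix.of fun i j =>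
  if i = j then
    (((D.primeFactors.filter fun r : ℕ => r ≠ (i : ℕ) ∧ ¬ IsSquare (r : ZMod (i : ℕ))).card : ZMod 2) +
      if ∃ y : ZMod (i : ℕ), y ^ 4 = -7 then 0 else 1)
  else if IsSquare ((j : ℕ) : ZMod (i : ℕ)) then 0 else 1

/-- all the prime factors of `D` are at most `t` and outside `S` -/
def Small (S : Finset ℕ) (t : ℝ) (D : ℕ) : Prop := ∀ q : ℕ, q.Prime → q ∣ D → (q : ℝ) ≤ t ∧ q ∉ S

open Classical in
/-- the number of the primes `p ≤ x`, `p = 1` modulo `4`, `p = 3` modulo `7`, with the property `P` -/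
noncomputable def count (P : ℕ → Prop) (x : ℕ) : ℕ :=
  ((Icc 1 x).filter fun p => p.Prime ∧ p % 4 = 1 ∧ p % 7 = 3 ∧ P p).card

section proof

open Q283.GW
open Q283.J2 (RZ49)
open scoped Classical

lemma class_iff (D : ℕ) : Class D ↔ C4 D := by
  unfold Class C4 CF
  constructor
  · rintro ⟨h1, h2⟩
    exact ⟨h1, fun p hp => ⟨Nat.prime_of_mem_primeFactors hp,
      h2 p (Nat.prime_of_mem_primeFactors hp) (Nat.dvd_of_mem_primeFactors hp)⟩⟩
  · rintro ⟨h1, h2⟩
    exact ⟨h1, fun p hp hd => (h2 p (Nat.mem_primeFactors.2 ⟨hp, hd, h1.ne_zero⟩)).2⟩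

lemma rz_eq (D : ℤ) : RankZeroShaTwo D ↔ RZ49 D := by
  unfold RankZeroShaTwo RZ49
  refine and_congr Iff.rfl (forall_congr' fun x => ?_)
  rw [two_nsmul]
  rfl

lemma isL_of {D : ℤ} {F : ℂ → ℂ} (h : Pool.Agent.Y19.QT.IsLFun (A D) (B D) F) : IsL D F := by
  refine ⟨h.1, fun s hs => ?_⟩
  have h1 := h.2 s hs
  have e : ∀ p : ℕ, ((p : ℤ) ∣ 2 * (-4 * A D ^ 3 - 27 * B D ^ 2)) ↔
      ((p : ℤ) ∣ 2 * (4 * A D ^ 3 + 27 * B D ^ 2)) := by
    intro p
    have e1 : 2 * (-4 * A D ^ 3 - 27 * B D ^ 2) = -(2 * (4 * A D ^ 3 + 27 * B D ^ 2)) := by ring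
    rw [e1, dvd_neg]
  have h2 : (fun p : ℕ => if p.Prime ∧ ¬ ((p : ℤ) ∣ 2 * (-4 * A D ^ 3 - 27 * B D ^ 2)) then
        (1 - ((p : ℂ) - (Nat.card {q : ZMod p × ZMod p //
            q.2 ^ 2 = q.1 ^ 3 + (A D : ZMod p) * q.1 + (B D : ZMod p)} : ℂ))
            * (p : ℂ) ^ (-s) + (p : ℂ) ^ (1 - 2 * s))⁻¹
      else 1) = Set.mulIndicator {p : ℕ | p.Prime ∧
        ¬ ((p : ℤ) ∣ 2 * (4 * A D ^ 3 + 27 * B D ^ 2))} (factor D s) := by
    funext p
    rw [Set.mulIndicator_apply]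
    by_cases hp : p.Prime ∧ ¬ ((p : ℤ) ∣ 2 * (4 * A D ^ 3 + 27 * B D ^ 2))
    · rw [if_pos ⟨hp.1, fun h' => hp.2 ((e p).1 h')⟩]
      refine Eq.trans ?_ (if_pos hp).symm
      unfold factor N
      push_cast
      congr 3
      ring
    · rw [if_neg fun h' => hp ⟨h'.1, fun h'' => h'.2 ((e p).2 h'')⟩]
      exact (if_neg hp).symm
  rw [h2] at h1
  exact (hasProd_subtype_iff_mulIndicator).2 h1

lemma isL_unique {D : ℤ} {f g : ℂ → ℂ} (hf : IsL D f) (hg : IsL D g) : f = g := by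
  have h1 : AnalyticOnNhd ℂ f Set.univ := fun z _ => hf.1.analyticAt z
  have h2 : AnalyticOnNhd ℂ g Set.univ := fun z _ => hg.1.analyticAt z
  refine AnalyticOnNhd.eq_of_eventuallyEq h1 h2 (z₀ := 2) ?_
  have hopen : {s : ℂ | (3 : ℝ) / 2 < s.re} ∈ nhds (2 : ℂ) :=
    (isOpen_lt continuous_const Complex.continuous_re).mem_nhds (by
      show (3 : ℝ) / 2 < (2 : ℂ).re
      norm_num)
  filter_upwards [hopen] with s hs
  exact (hf.2 s hs).unique (hg.2 s hs)

lemma crit {D : ℕ} (hD : Class D) : RankZeroShaTwo D ↔ (R D).det ≠ 0 := by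
  have hC := (class_iff D).1 hD
  rw [rz_eq, hC.eq, Q283.GW.rz_CF hC.2, ← Q283.GW.det_R hC.2]
  exact Iff.rfl

lemma nonv {D : ℕ} (hD : Class D) (hR : RankZeroShaTwo D) : Nonvanishing D := by
  have hC := (class_iff D).1 hD
  have hD0 : (D : ℤ) ≠ 0 := by exact_mod_cast hC.1.ne_zero
  rw [rz_eq, hC.eq, Q283.GW.rz_CF hC.2] at hR
  have h1 := Q283.GW.zb_CF hC.2 hR
  rw [← hC.eq] at h1
  obtain ⟨⟨F, hF, hF1⟩, hfin⟩ := h1
  have hL := isL_of hF
  refine ⟨?_, ⟨F, hL⟩, fun f hf => ?_, hfin⟩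
  · have e : 4 * A D ^ 3 + 27 * B D ^ 2 = (4 * (-2835) ^ 3 + 27 * (-71442) ^ 2) * (D : ℤ) ^ 6 := by
      unfold A B
      ring
    rw [e]
    exact mul_ne_zero (by norm_num) (pow_ne_zero 6 hD0)
  · rw [isL_unique hf hL]
    exact (hF.1.analyticAt 1).analyticOrderAt_eq_zero.1 hF1

/-- the quartic symbol -/
noncomputable def quart (i : ℕ) : ZMod 2 := if ∃ y : ZMod i, y ^ 4 = -7 then 0 else 1

lemma R_eq (D : ℕ) : R D = Pool.Agent.Q84.MB.matc quart D.primeFactors (splitPrimes D) := rfl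

lemma class_mul {D p : ℕ} (hD : Class D) (hp : p.Prime) (hp4 : p % 4 = 1) (hpD : ¬ p ∣ D) :
    Class (D * p) := by
  refine ⟨?_, fun q hq hqd => ?_⟩
  · rw [Nat.squarefree_mul ((Nat.Prime.coprime_iff_not_dvd hp).2 hpD).symm]
    exact ⟨hD.1, hp.squarefree⟩
  · rcases (Nat.Prime.dvd_mul hq).1 hqd with h | h
    · exact hD.2 q hq h
    · rw [(Nat.prime_dvd_prime_iff_eq hq hp).1 h]
      exact hp4

lemma det_mul {D p : ℕ} (hD : Class D) (hp : p.Prime) (hp7 : p % 7 = 3) (hpD : ¬ p ∣ D)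
    (t : ℕ → ZMod 2) (ht : ∀ i ∈ splitPrimes D, (IsSquare (p : ZMod i) ↔ t i = 0)) :
    (R (D * p)).det = (R D + Matrix.diagonal fun i : splitPrimes D => t i).det := by
  have hD0 : D ≠ 0 := hD.1.ne_zero
  have hpf : (D * p).primeFactors = insert p D.primeFactors := by
    rw [Nat.primeFactors_mul hD0 hp.ne_zero, Nat.Prime.primeFactors hp, union_comm]
    rfl
  have hsp : splitPrimes (D * p) = splitPrimes D := by
    unfold splitPrimes
    rw [hpf, filter_insert, if_neg (by omega)]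
  have hpF : p ∉ D.primeFactors := fun h => hpD (Nat.dvd_of_mem_primeFactors h)
  have hTp : ∀ i ∈ splitPrimes D, i ≠ p := by
    rintro i hi rfl
    exact hpF (mem_filter.1 hi).1
  rw [R_eq, R_eq, hsp, hpf, Pool.Agent.Q84.MB.matc_insert quart _ _ p hpF hTp t ht]

end proof

/-- **One prime for all the small twists.** Let `ε > 0` and `Z` be given. There is `δ > 0` such that for all large
`x` there is a set `S` of at most `(log x) ^ (49 / 50)` primes, all larger than `Z`, with the following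
properties, where `D` always denotes an integer of the class all of whose prime factors are at most `δ log x`
and outside `S`.

(1) For every `t` at least `x ^ (1 - ε)` primes `p ≤ x` satisfy, for ALL `D` at once: `E_{D p}(ℚ)` is
finite and `Ш(E_{D p})[2] = 0` if and only if the matrix `R D + diag (t i)` is nonsingular, and then
`L(E_{D p}, s)` is entire and `L(E_{D p}, 1) ≠ 0`.

(2) At least `x ^ (1 - ε)` primes `p ≤ x` satisfy, for all `D` with at most two prime factors, all of them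
congruent to `1`, `2` or `4` modulo `7`: `E_{D p}(ℚ)` is finite, `Ш(E_{D p})[2] = 0` and
`L(E_{D p}, 1) ≠ 0`.

(3) At least `x ^ (1 - ε)` primes `p ≤ x` satisfy, for all `D`: `E_{D p}(ℚ)` is finite and
`Ш(E_{D p})[2] = 0` if and only if this holds for `E_D`; and then `L(E_{D p}, 1) ≠ 0`. -/
theorem result (ε : ℝ) (hε : 0 < ε) (Z : ℕ) : ∃ δ : ℝ, 0 < δ ∧ ∃ x₀ : ℕ, ∀ x : ℕ, x₀ ≤ x →
    ∃ S : Finset ℕ, (∀ q ∈ S, q.Prime ∧ Z < q) ∧ (S.card : ℝ) ≤ (Real.log x) ^ (49 / 50 : ℝ) ∧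
    -- (1)
    (∀ t : ℕ → ZMod 2, (x : ℝ) ^ (1 - ε) ≤ (count (fun p => ∀ D : ℕ, Class D →
      Small S (δ * Real.log x) D →
      (RankZeroShaTwo ((D * p : ℕ) : ℤ) ↔ (R D + Matrix.diagonal fun i : splitPrimes D => t i).det ≠ 0) ∧
      (RankZeroShaTwo ((D * p : ℕ) : ℤ) → Nonvanishing ((D * p : ℕ) : ℤ))) x : ℝ)) ∧
    -- (2)
    (x : ℝ) ^ (1 - ε) ≤ (count (fun p => ∀ D : ℕ, Class D → Small S (δ * Real.log x) D →
      D.primeFactors.card ≤ 2 → (∀ q ∈ D.primeFactors, q % 7 = 1 ∨ q % 7 = 2 ∨ q % 7 = 4) →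
      RankZeroShaTwo ((D * p : ℕ) : ℤ) ∧ Nonvanishing ((D * p : ℕ) : ℤ)) x : ℝ) ∧
    -- (3)
    (x : ℝ) ^ (1 - ε) ≤ (count (fun p => ∀ D : ℕ, Class D → Small S (δ * Real.log x) D →
      (RankZeroShaTwo ((D * p : ℕ) : ℤ) ↔ RankZeroShaTwo (D : ℤ)) ∧
      (RankZeroShaTwo (D : ℤ) → Nonvanishing ((D * p : ℕ) : ℤ))) x : ℝ) := by
  classical
  obtain ⟨δ, hδ, x₀, h⟩ := Pool.Agent.Q84.MB.sym_main (Z + 7) (by omega) ε hε
  refine ⟨δ, hδ, max x₀ 1, fun x hx => ?_⟩
  have hx0 : 1 ≤ x := (le_max_right _ _).trans hx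
  obtain ⟨h0, h0', S, hS, hSc, -, hmain⟩ := h x ((le_max_left _ _).trans hx)
  have hxr : (0 : ℝ) < x := by exact_mod_cast hx0
  -- the main property
  have key : ∀ t : ℕ → ZMod 2, (x : ℝ) ^ (1 - ε) ≤ (count (fun p => ∀ D : ℕ, Class D →
      Small S (δ * Real.log x) D → Class (D * p) ∧
      (R (D * p)).det = (R D + Matrix.diagonal fun i : splitPrimes D => t i).det) x : ℝ) := by
    intro t
    refine (hmain 1 3 t (by norm_num) (by norm_num)).trans ?_
    unfold count
    apply Nat.cast_le.2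
    apply card_le_card
    intro p hp
    rw [mem_filter] at hp ⊢
    obtain ⟨h1, h2, h3, h4, h5, h6⟩ := hp
    have h4' : p % 8 = 1 := h4
    have h5' : p % 7 = 3 := h5
    refine ⟨h1, h2, by omega, h5', fun D hD hDs => ?_⟩
    have hpD : ¬ p ∣ D := by
      intro hd
      have h7 := (hDs p h2 hd).1
      linarith
    refine ⟨class_mul hD h2 (by omega) hpD, det_mul hD h2 h5' hpD t fun i hi => ?_⟩
    unfold splitPrimes at hi
    rw [mem_filter, Nat.mem_primeFactors] at hi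
    obtain ⟨⟨hi1, hi2, -⟩, hi3⟩ := hi
    obtain ⟨h8, h9⟩ := hDs i hi1 hi2
    have h10 := hD.2 i hi1 hi2
    exact h6 i hi1 (by have := hi1.two_le; omega) (by rintro rfl; omega) h8 h9
  have mono : ∀ P Q : ℕ → Prop, (∀ p, P p → Q p) → count P x ≤ count Q x := by
    intro P Q hPQ
    unfold count
    apply card_le_card
    intro p hp
    rw [mem_filter] at hp ⊢
    exact ⟨hp.1, hp.2.1, hp.2.2.1, hp.2.2.2.1, hPQ p hp.2.2.2.2⟩
  refine ⟨S, fun q hq => ⟨(hS q hq).1, by have := (hS q hq).2; omega⟩, hSc, fun t => ?_, ?_, ?_⟩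
  · refine (key t).trans (Nat.cast_le.2 (mono _ _ fun p hp D hD hDs => ?_))
    obtain ⟨h1, h2⟩ := hp D hD hDs
    exact ⟨by rw [crit h1, h2], fun h3 => nonv h1 h3⟩
  · refine (key fun i => 1 + quart i).trans (Nat.cast_le.2 (mono _ _ fun p hp D hD hDs hDc hDq => ?_))
    obtain ⟨h1, h2⟩ := hp D hD hDs
    have h3 : splitPrimes D = D.primeFactors := by
      unfold splitPrimes
      exact filter_true_of_mem hDq
    have h4 : (R D + Matrix.diagonal fun i : splitPrimes D => (1 + quart i)).det ≠ 0 := by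
      rw [R_eq, Pool.Agent.Q84.MB.matc_diag quart (fun i => 1 + quart i)]
      have h5 : (fun i => quart i + (1 + quart i)) = fun _ : ℕ => (1 : ZMod 2) := by
        funext i
        have : ∀ a : ZMod 2, a + (1 + a) = 1 := by decide
        exact this _
      rw [h5, h3]
      exact Pool.Agent.Q84.MB.det_two _ (fun q hq => ⟨Nat.prime_of_mem_primeFactors hq,
        hD.2 q (Nat.prime_of_mem_primeFactors hq) (Nat.dvd_of_mem_primeFactors hq)⟩) hDc
    have h6 : RankZeroShaTwo ((D * p : ℕ) : ℤ) := by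
      rw [crit h1, h2]
      exact h4
    exact ⟨h6, nonv h1 h6⟩
  · refine (key fun _ => 0).trans (Nat.cast_le.2 (mono _ _ fun p hp D hD hDs => ?_))
    obtain ⟨h1, h2⟩ := hp D hD hDs
    have h3 : (R D + Matrix.diagonal fun i : splitPrimes D => (0 : ZMod 2)) = R D := by
      rw [Matrix.diagonal_zero, add_zero]
    rw [h3] at h2
    have h4 : RankZeroShaTwo ((D * p : ℕ) : ℤ) ↔ RankZeroShaTwo (D : ℤ) := by
      rw [crit h1, h2, crit hD]
    exact ⟨h4, fun h5 => nonv h1 (h4.2 h5)⟩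

end Pool.Agent.Results.MP_8b7eba_nt.SimultaneousTwists
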